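import Pool.Agent.SZG.StmtsM

/-! SZG, row FNB: first properties of the normalised functions. -/

set_option autoImplicit false

namespace Pool.Agent.SZG.H68

open scoped BigOperators
open Pool.Agent.THS Pool.Agent.SZG

theorem le_nv' {K ι : Type} [Field K] [Finite ι] (v : AbsoluteValue K ℝ) (y : ι → K) (p : ι) :
    v (y p) ≤ nv v y :=
  le_ciSup (f := fun i => v (y i)) (Set.finite_range _).bddAbove p

theorem nv_pos' {K ι : Type} [Field K] [Finite ι] (v : AbsoluteValue K ℝ) (y : ι → K)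
    (hy : y ≠ 0) : 0 < nv v y := by
  obtain ⟨p, hp⟩ := Function.ne_iff.mp hy
  exact (v.pos hp).trans_le (le_nv' v y p)

theorem fnb (wxc : WxcStmt) : FnbStmt := by
  intro K I _ _ v θ g E L0 c e s T x W X Z δ A R o hL hA hR hnf ho k u
  obtain ⟨-, -, -, w4, w5, -, -, -⟩ := wxc K I v L0 c e W X hL.wx
  have hA0 : A ≠ 0 := by
    rintro rfl
    rw [map_zero] at hA
    exact (hL.wx.pos δ).ne hA
  have hR0 : R ≠ 0 := by
    rintro rfl
    rw [map_zero] at hR
    exact (pow_pos (hL.wx.xpos Z δ) 2).ne hR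
  have hT0 : 0 < nv v (T 0) := nv_pos' v _ (hL.qs.T0 0)
  have hcan : ∀ k u : ℤ, nv v (T (k • Z + u • δ)) = nv v (T 0) * W (k • Z + u • δ) := hL.can
  have hcan0 : ∀ k : ℤ, nv v (T (k • Z)) = nv v (T 0) * W (k • Z) := by
    intro k
    have := hcan k 0
    rwa [zero_smul, add_zero] at this
  have hW : W (k • Z + (2 * u) • δ) = W (k • Z) * W δ ^ (4 * u ^ 2) * (X Z δ ^ 2) ^ (k * u) := by
    rw [hL.wx.add, w5 (2 * u) δ, (w4 k Z ((2 * u) • δ)).1, (w4 (2 * u) Z δ).2,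
      ← zpow_natCast (X Z δ) 2, ← zpow_mul, ← zpow_mul]
    congr 2
    · congr 1
      ring
    · push_cast
      ring
  have h1 : v (A ^ (4 * u ^ 2) * R ^ (k * u) * T (k • Z) (o k)) =
      nv v (T 0) * W (k • Z + (2 * u) • δ) := by
    rw [map_mul, map_mul, map_zpow₀, map_zpow₀, hA, hR, ho k, hcan0 k, hW]
    ring
  have hDpos : 0 < nv v (T 0) * W (k • Z + (2 * u) • δ) := mul_pos hT0 (hL.wx.pos _)
  have hTk0 : T (k • Z) (o k) ≠ 0 := by
    intro h
    have h2 := ho k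
    rw [h, map_zero, hcan0 k] at h2
    exact (mul_pos hT0 (hL.wx.pos _)).ne h2
  have hfn0 : ∀ a, fn T A R Z δ o k 0 a = T (k • Z) a / T (k • Z) (o k) := by
    intro a
    unfold fn
    simp
  refine ⟨h1, ?_, ?_, ?_⟩
  · intro a
    unfold fn
    rw [map_div₀, h1, div_le_one hDpos, ← hcan]
    exact le_nv' v _ a
  · rw [hfn0, div_self hTk0]
  · intro a
    have hD0 : A ^ (4 * u ^ 2) * R ^ (k * u) ≠ 0 :=
      mul_ne_zero (zpow_ne_zero _ hA0) (zpow_ne_zero _ hR0)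
    have h2 : fn T A R Z δ o k u a - fn T A R Z δ o k 0 a =
        (T (k • Z + (2 * u) • δ) a - A ^ (4 * u ^ 2) * R ^ (k * u) * T (k • Z) a) /
          (A ^ (4 * u ^ 2) * R ^ (k * u) * T (k • Z) (o k)) := by
      rw [hfn0]
      unfold fn
      field_simp
    rw [h2, map_div₀, h1, div_le_iff₀ hDpos]
    exact hnf k u a

end Pool.Agent.SZG.H68
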